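import Pool.Agent.N65.GP.Defs2
set_option autoImplicit false

/-!
# Project GP, second part, EC: the finite sets `M` and `D`
-/

namespace Pool.Agent.N767.GP2.EC

open Pool.Agent.N65.GP

/-- the rank condition from the nonsingular matrix of `S_LI` -/
lemma rank {n : ℕ} (y b : Fin n → ℂ) (u : Fin n × Fin 3 → ℂ)
    (hdet : (Matrix.of fun j p : Fin n × Fin 3 => (![Real.log ‖y p.1 - u j‖,
      (b p.1 / (y p.1 - u j)).re, (b p.1 / (y p.1 - u j)).im] : Fin 3 → ℝ) p.2).det ≠ 0)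
    (v : Fin n → ℝ) (hv : ∀ j, ∑ i, v i * Real.log ‖y i - u j‖ = 0) : v = 0 := by
  have h1 := Matrix.eq_zero_of_mulVec_eq_zero (v := fun p : Fin n × Fin 3 =>
    if p.2 = 0 then v p.1 else 0) hdet (by
      funext j
      simp only [Matrix.mulVec, dotProduct, Matrix.of_apply, Fintype.sum_prod_type,
        Fin.sum_univ_three, Pi.zero_apply]
      refine Eq.trans (Finset.sum_congr rfl fun i _ => ?_) (hv j)
      simp
      ring)
  funext i
  have h2 := congrFun h1 (i, 0)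
  simpa using h2

variable {k : Subfield ℂ}

/-- the space of the solutions of the relation for one `c` -/
noncomputable def NN (C : Crv k) {R : ℝ} (b : Br C R) {d : ℕ} (γ : Fin d → Loop) (M : Finset ℂ)
    (c : ℂ) : Submodule ℝ ((Fin d → ℝ) × (M → Fin C.n → ℝ) × ℝ) where
  carrier := {v | ∃ lamc : Fin C.n → ℝ, ∀ m : M, ∑ l, v.1 l * (γ l).reg m c =
    ∑ i, lamc i * Real.log ‖b.yb i c - m‖ + ∑ i, v.2.1 m i * Real.log ‖b.xb i m - c‖ + v.2.2}
  add_mem' := by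
    rintro v v' ⟨l1, h1⟩ ⟨l2, h2⟩
    refine ⟨l1 + l2, fun m => ?_⟩
    have h3 := h1 m
    have h4 := h2 m
    simp only [Prod.fst_add, Prod.snd_add, Pi.add_apply, add_mul, Finset.sum_add_distrib]
    linarith
  zero_mem' := ⟨0, fun m => by simp⟩
  smul_mem' := by
    rintro a v ⟨l1, h1⟩
    refine ⟨a • l1, fun m => ?_⟩
    have h3 := h1 m
    simp only [Prod.smul_fst, Prod.smul_snd, Pi.smul_apply, smul_eq_mul, mul_assoc,
      ← Finset.mul_sum]
    rw [h3]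
    ring

lemma mem_NN (C : Crv k) {R : ℝ} (b : Br C R) {d : ℕ} (γ : Fin d → Loop) (M : Finset ℂ)
    (c : ℂ) (v : (Fin d → ℝ) × (M → Fin C.n → ℝ) × ℝ) : v ∈ NN C b γ M c ↔
    ∃ lamc : Fin C.n → ℝ, ∀ m : M, ∑ l, v.1 l * (γ l).reg m c =
    ∑ i, lamc i * Real.log ‖b.yb i c - m‖ + ∑ i, v.2.1 m i * Real.log ‖b.xb i m - c‖ + v.2.2 :=
  Iff.rfl

theorem t_EC (hLI : S_LI) (hFI : S_FI) (hPF : S_PF) (hEM : S_EM) : S_EC := by
  classical
  intro k hk C R b hirr d γ hBd hInd D₀ Y hD₀ hY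
  obtain ⟨R₂, hR₂, hEM⟩ := hEM k hk C R b hirr d γ hBd hInd
  obtain ⟨Z0, hZ0⟩ : ∃ Z0 : Finset ℂ, Z0 = D₀.biUnion fun c => Finset.univ.image (Y c) := ⟨_, rfl⟩
  have hZ0mem : ∀ c ∈ D₀, ∀ i, Y c i ∈ Z0 := by
    intro c hc i
    rw [hZ0, Finset.mem_biUnion]
    exact ⟨c, hc, Finset.mem_image_of_mem _ (Finset.mem_univ i)⟩
  have hdense : Dense ((k : Set ℂ) \ (Z0 : Set ℂ)) := hk.sdiff_finset Z0
  -- the points `u`
  have hu : ∀ c, ∃ u : Fin C.n × Fin 3 → ℂ, c ∈ D₀ →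
      (∀ j, u j ∈ (k : Set ℂ) \ (Z0 : Set ℂ) ∧ R₂ < ‖u j‖) ∧
      ∀ v : Fin C.n → ℝ, (∀ j, ∑ i, v i * Real.log ‖Y c i - u j‖ = 0) → v = 0 := by
    intro c
    by_cases hc : c ∈ D₀
    · obtain ⟨u, hu1, hu2⟩ := hLI C.n (Y c) (fun _ => 1) R₂ _ hdense (hY c hc).1
        (fun _ => one_ne_zero)
      exact ⟨u, fun _ => ⟨fun j => ⟨(hu1 j).1, (hu1 j).2.1⟩, rank (Y c) (fun _ => 1) u hu2⟩⟩
    · exact ⟨fun _ => 0, fun h => absurd h hc⟩
  choose u hu using hu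
  obtain ⟨M₀, hM₀⟩ : ∃ M₀ : Finset ℂ, M₀ = D₀.biUnion fun c => Finset.univ.image (u c) := ⟨_, rfl⟩
  have hM₀mem : ∀ m ∈ M₀, (m ∈ k ∧ R₂ < ‖m‖) ∧ m ∉ Z0 := by
    intro m hm
    rw [hM₀, Finset.mem_biUnion] at hm
    obtain ⟨c, hc, hm⟩ := hm
    rw [Finset.mem_image] at hm
    obtain ⟨j, -, rfl⟩ := hm
    have h1 := (hu c hc).1 j
    exact ⟨⟨h1.1.1, h1.2⟩, fun h => h1.1.2 h⟩
  have hrk : ∀ c ∈ D₀, ∀ v : Fin C.n → ℝ,
      (∀ m ∈ M₀, ∑ i, v i * Real.log ‖Y c i - m‖ = 0) → v = 0 := by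
    intro c hc v hv
    refine (hu c hc).2 v fun j => hv _ ?_
    rw [hM₀, Finset.mem_biUnion]
    exact ⟨c, hc, Finset.mem_image_of_mem _ (Finset.mem_univ j)⟩
  obtain ⟨M, c₀, ε, hMM, hε, hMk, hMZ, hball, hconc⟩ :=
    hEM Z0 D₀ M₀ fun m hm => (hM₀mem m hm).1
  have hMZ0 : ∀ m ∈ M, m ∉ Z0 := by
    intro m hm
    by_cases h : m ∈ M₀
    · exact (hM₀mem m h).2
    · exact hMZ m hm h
  have hF0 : ∀ m ∈ M, ∀ c ∈ D₀, C.F c m ≠ 0 := by
    intro m hm c hc h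
    obtain ⟨i, hi⟩ := ((hY c hc).2 m).1 h
    apply hMZ0 m hm
    rw [hi]
    exact hZ0mem c hc i
  -- the finite set `D`
  obtain ⟨J, hJ⟩ := hFI ((Fin d → ℝ) × (M → Fin C.n → ℝ) × ℝ)
    {c : ℂ // c ∈ k ∧ c ∈ Metric.ball c₀ ε} (fun c => NN C b γ M c.1)
  have hDmem : ∀ c ∈ J.image Subtype.val, c ∈ k ∧ c ∈ Metric.ball c₀ ε := by
    intro c hc
    rw [Finset.mem_image] at hc
    obtain ⟨c', -, rfl⟩ := hc
    exact c'.2
  refine ⟨M, J.image Subtype.val, hMk, fun c hc => ?_, fun m hm c hc => ?_, hF0, ?_⟩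
  · have h1 := hDmem c hc
    have h2 := hball c h1.2
    exact ⟨h1.1, h2.1, h2.2.1⟩
  · exact (hball c (hDmem c hc).2).2.2.1 m hm
  intro s lam lam' τ hrel hrel0
  have hv : ((s, (fun m : M => lam' m), τ) : (Fin d → ℝ) × (M → Fin C.n → ℝ) × ℝ) ∈
      ⨅ i ∈ J, NN C b γ M i.1 := by
    rw [Submodule.mem_iInf]
    intro c
    rw [Submodule.mem_iInf]
    intro hc
    rw [mem_NN]
    exact ⟨lam c.1, fun m => hrel m m.2 c.1 (Finset.mem_image_of_mem _ hc)⟩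
  rw [hJ, Submodule.mem_iInf] at hv
  have hl2 : ∀ c, ∃ l2 : Fin C.n → ℝ, c ∈ k ∧ c ∈ Metric.ball c₀ ε → ∀ m ∈ M,
      ∑ l, s l * (γ l).reg m c =
        ∑ i, l2 i * Real.log ‖b.yb i c - m‖ + ∑ i, lam' m i * Real.log ‖b.xb i m - c‖ + τ := by
    intro c
    by_cases hc : c ∈ k ∧ c ∈ Metric.ball c₀ ε
    · have h1 := hv ⟨c, hc⟩
      rw [mem_NN] at h1
      obtain ⟨l2, h2⟩ := h1
      exact ⟨l2, fun _ m hm => h2 ⟨m, hm⟩⟩
    · exact ⟨0, fun h => absurd h hc⟩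
  choose lam2 hlam2 using hl2
  obtain ⟨hs0, β, hτ, hβ, hβ'⟩ := hconc s lam2 lam' τ fun m hm c hc =>
    hlam2 c ⟨hc.1, hc.2⟩ m hm
  refine ⟨hs0, β, ?_, ?_, hβ'⟩
  · intro c hc i
    have h1 := hDmem c hc
    have h2 : lam c - lam2 c = 0 := by
      refine (hball c h1.2).2.2.2 _ fun m hm => ?_
      have h3 := hrel m hm c hc
      have h4 := hlam2 c h1 m hm
      simp only [Pi.sub_apply, sub_mul, Finset.sum_sub_distrib]
      linarith
    have h5 := congrFun h2 i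
    rw [Pi.sub_apply, Pi.zero_apply, hβ c h1.1 h1.2 i] at h5
    linarith
  · intro c hc i
    have h2 : (fun i => lam c i - β) = 0 := by
      refine hrk c hc _ fun m hm => ?_
      have hmM := hMM hm
      have h3 := hrel0 m hmM c hc
      have hne := hF0 m hmM c hc
      have p1 := (hPF k C).2.1 c (Y c) (hY c hc).1 (hY c hc).2 m
      have p2 : C.F c m = (∏ i, (- C.α i)) * ∏ i, (c - b.xb i m) :=
        (hPF k C).2.2 m (fun i => b.xb i m) (b.injX m (hMk m hmM).2)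
          (b.rootX m (hMk m hmM).2) c
      have q1 : Real.log ‖C.F c m‖ = ∑ i, Real.log ‖Y c i - m‖ := by
        rw [p1, norm_prod, Real.log_prod]
        · exact Finset.sum_congr rfl fun i _ => by rw [norm_sub_rev]
        · intro i _ h0
          apply hne
          rw [p1]
          exact Finset.prod_eq_zero (Finset.mem_univ i) (norm_eq_zero.1 h0)
      have q2 : Real.log ‖C.F c m‖ =
          ∑ i, Real.log ‖C.α i‖ + ∑ i, Real.log ‖b.xb i m - c‖ := by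
        have r1 : ∀ i, ‖c - b.xb i m‖ ≠ 0 := by
          intro i h0
          apply hne
          have r0 : ∏ i, (c - b.xb i m) = 0 :=
            Finset.prod_eq_zero (Finset.mem_univ i) (norm_eq_zero.1 h0)
          rw [p2, r0, mul_zero]
        have r2 : ∀ i, ‖-C.α i‖ ≠ 0 := fun i => norm_ne_zero_iff.2 (neg_ne_zero.2 (C.ne i))
        rw [p2, norm_mul, norm_prod, norm_prod, Real.log_mul
          (Finset.prod_ne_zero_iff.2 fun i _ => r2 i) (Finset.prod_ne_zero_iff.2 fun i _ => r1 i),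
          Real.log_prod fun i _ => r2 i, Real.log_prod fun i _ => r1 i]
        congr 1
        · exact Finset.sum_congr rfl fun i _ => by rw [norm_neg]
        · exact Finset.sum_congr rfl fun i _ => by rw [norm_sub_rev]
      have q3 : ∑ l, s l * (γ l).reg m c = 0 := by
        rw [hs0]
        simp
      have q4 : ∑ i, lam' m i * Real.log ‖b.xb i m - c‖ = - β * ∑ i, Real.log ‖b.xb i m - c‖ := by
        rw [Finset.mul_sum]
        exact Finset.sum_congr rfl fun i _ => by rw [hβ' m hmM i]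
      simp only [sub_mul, Finset.sum_sub_distrib, ← Finset.mul_sum]
      rw [q3, q4, hτ] at h3
      have q5 : β * ∑ i, Real.log ‖Y c i - m‖ =
          β * ∑ i, Real.log ‖C.α i‖ + β * ∑ i, Real.log ‖b.xb i m - c‖ := by
        rw [← q1, q2]
        ring
      linarith
    have h5 := congrFun h2 i
    simp only [Pi.zero_apply] at h5
    linarith

end Pool.Agent.N767.GP2.EC
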